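import Pool.Agent.P.MP_2806c7_co.Linear
import Pool.Agent.Lib.Lyapunov.Split

open MeasureTheory

/-- Fair splitting of cookies.  `r` children, `n` cookies, `m` kinds of frosting; cookie `k` is
the unit interval with finite Borel measures `μ k j` vanishing on points.  There is a fair
distribution into Borel pieces `A k c` with at most `(r - 1) * m` cut cookies in which each child
has at least `⌊(n - m (r - 1)) / r⌋` full cookies. -/
theorem Pool.Agent.Results.MP_2806c7_co.Full.result
    (r n m : ℕ) (hr : 0 < r)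
    (μ : Fin n → Fin m → Measure (Set.Icc (0 : ℝ) 1))
    (hfin : ∀ k j, IsFiniteMeasure (μ k j))
    (hna : ∀ k j x, μ k j {x} = 0) :
    ∃ A : Fin n → Fin r → Set (Set.Icc (0 : ℝ) 1),
      (∀ k c, MeasurableSet (A k c)) ∧
      (∀ k c c', c ≠ c' → Disjoint (A k c) (A k c')) ∧
      (∀ k, ⋃ c, A k c = Set.univ) ∧
      (∀ c j, ∑ k, (μ k j).real (A k c) = (1 / (r : ℝ)) * ∑ k, (μ k j).real Set.univ) ∧
      {k | ∀ c, A k c ≠ Set.univ}.ncard ≤ (r - 1) * m ∧
      ∀ c, ⌊((n : ℚ) - (m : ℚ) * ((r : ℚ) - 1)) / (r : ℚ)⌋ ≤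
        ({k | A k c = Set.univ}.ncard : ℤ) := by
  classical
  have hns : ∀ k j, NullSingletonClass (μ k j) := fun k j => ⟨hna k j⟩
  set z : ℤ := ⌊((n : ℚ) - (m : ℚ) * ((r : ℚ) - 1)) / (r : ℚ)⌋ with hz
  have hq : z.toNat = 0 ∨ r * z.toNat + m * (r - 1) ≤ Fintype.card (Fin n) := by
    rcases le_or_gt z 0 with h | h
    · exact Or.inl (Int.toNat_eq_zero.2 h)
    · right
      have h1 : (z : ℚ) ≤ ((n : ℚ) - (m : ℚ) * ((r : ℚ) - 1)) / (r : ℚ) := Int.floor_le _
      have hr0 : (0 : ℚ) < r := by exact_mod_cast hr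
      rw [le_div_iff₀ hr0] at h1
      have h2 : ((z.toNat : ℕ) : ℚ) = (z : ℚ) := by
        have : ((z.toNat : ℕ) : ℤ) = z := Int.toNat_of_nonneg h.le
        exact_mod_cast this
      have h3 : ((r * z.toNat + m * (r - 1) : ℕ) : ℚ) ≤ (n : ℚ) := by
        push_cast [Nat.cast_sub hr, h2]
        linarith
      rw [Fintype.card_fin]
      exact_mod_cast h3
  obtain ⟨x, h1, h2, h3, h4, h5⟩ := Pool.Agent.P.MP_2806c7_co.linear_cookie r m z.toNat hr
    (fun k j => (μ k j).real Set.univ) hq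
  have key : ∀ k, ∃ B : Fin r → Set (Set.Icc (0 : ℝ) 1), (∀ c, MeasurableSet (B c)) ∧
      Pairwise (Function.onFun Disjoint B) ∧ ⋃ c, B c = Set.univ ∧
      (∀ j c, (μ k j).real (B c) = x c k * (μ k j).real Set.univ) ∧
      ∀ c, x c k = 1 → B c = Set.univ := by
    intro k
    by_cases hk : ∃ c, x c k = 1
    · obtain ⟨c, hc⟩ := hk
      have h0 : ∀ d, d ≠ c → x d k = 0 := by
        intro d hd
        have e1 := h2 k
        rw [← Finset.add_sum_erase _ _ (Finset.mem_univ c), hc, add_eq_left,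
          Finset.sum_eq_zero_iff_of_nonneg (fun d _ => h1 d k)] at e1
        exact e1 d (Finset.mem_erase.2 ⟨hd, Finset.mem_univ _⟩)
      refine ⟨fun d => if d = c then Set.univ else ∅, fun d => ?_, fun d e hde => ?_, ?_,
        fun j d => ?_, fun d hd => ?_⟩
      · beta_reduce; split_ifs <;> simp
      · simp only [Function.onFun]
        split_ifs with g1 g2 g2
        · exact absurd (g1.trans g2.symm) hde
        all_goals simp
      · exact Set.eq_univ_of_forall fun y => Set.mem_iUnion.2 ⟨c, by simp⟩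
      · by_cases hd : d = c
        · simp [hd, hc]
        · simp [hd, h0 d hd]
      · by_cases hd' : d = c
        · simp [hd']
        · rw [h0 d hd'] at hd; norm_num at hd
    · obtain ⟨B, g1, g2, g3, g4⟩ := Pool.Agent.Lib.Lyapunov.exists_pieces (μ k) hr
        (fun c => x c k) (fun c => h1 c k) (h2 k)
      exact ⟨B, g1, g2, g3, g4, fun c hc => absurd ⟨c, hc⟩ hk⟩
  choose A g1 g2 g3 g4 g5 using key
  refine ⟨A, g1, fun k c c' h => g2 k h, g3, fun c j => ?_, ?_, fun c => ?_⟩
  · simp only [g4]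
    rw [h3]; ring
  · refine le_trans ?_ h4
    rw [← Set.ncard_coe_finset]
    refine Set.ncard_le_ncard (fun k hk => ?_) (Set.toFinite _)
    simp only [Finset.coe_filter, Finset.mem_univ, true_and, Set.mem_ofPred_eq]
    exact fun c hc => hk c (g5 k c hc)
  · obtain ⟨S, hS, hS'⟩ := h5 c
    have e1 : S.card ≤ {k | A k c = Set.univ}.ncard := by
      rw [← Set.ncard_coe_finset]
      exact Set.ncard_le_ncard (fun k hk => g5 k c (hS' k hk)) (Set.toFinite _)
    have e2 : z ≤ (z.toNat : ℤ) := Int.self_le_toNat z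
    omega
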